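import Pool.Agent.Y808.LB.Stm3

/-!
# LB-TRI: algebras of finite type and dimension at most three over a discrete valuation ring with
algebraically closed residue field
-/

set_option autoImplicit false

open Polynomial IsLocalRing Pool.Agent.Y808.LB

noncomputable section

namespace Pool.Agent.Y421.LB

/-- a purely transcendental extension of degree zero -/
theorem pureTr_of_surj (κ L : Type) [Field κ] [Field L] [Algebra κ L]
    (h : Function.Surjective (algebraMap κ L)) : PureTr κ L := by
  refine ⟨0, Fin.elim0, ?_, ?_⟩
  · exact algebraicIndependent_empty_type_iff.mpr (algebraMap κ L).injective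
  · rw [eq_top_iff]
    intro z _
    obtain ⟨c, rfl⟩ := h z
    exact (IntermediateField.adjoin κ _).algebraMap_mem c

theorem t_TRI : S_RFD → S_TRI := by
  intro hR V A _ _ _ _ _ _ π hac hπ hft hdim hsnc q hq
  obtain ⟨r, s, x, y, u, hm, hd, hu⟩ := hsnc q
  have hperf : PerfectField (ResidueField V) := inferInstance
  have hess : Algebra.EssFiniteType V (Localization.AtPrime q) := by
    have : Algebra.EssFiniteType A (Localization.AtPrime q) :=
      Algebra.EssFiniteType.of_isLocalization _ q.primeCompl
    have : Algebra.EssFiniteType V A := inferInstance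
    exact Algebra.EssFiniteType.comp V A (Localization.AtPrime q)
  refine ⟨V, inferInstance, inferInstance, inferInstance, π, inferInstance, r, s, x, y,
    inferInstance, hperf, hπ, hess, hm, hd, Or.inr (Or.inr ⟨⟨u, hu⟩, ?_⟩)⟩
  by_cases hr : r ≤ 2
  · exact Or.inl hr
  by_cases hs : 0 < s
  · exact Or.inr (Or.inl hs)
  refine Or.inr (Or.inr ?_)
  have hs0 : s = 0 := by omega
  subst hs0
  have hh : ringKrullDim (Localization.AtPrime q) = q.height :=
    IsLocalization.AtPrime.ringKrullDim_eq_height q _
  have hle : (q.height : WithBot ℕ∞) ≤ ringKrullDim A := Ideal.height_le_ringKrullDim_of_isPrime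
  have hr3 : r = 3 := by
    have h1 : ((r + 0 : ℕ) : WithBot ℕ∞) ≤ 3 := by
      rw [← hd, hh]; exact hle.trans hdim
    have h2 : r + 0 ≤ 3 := by exact_mod_cast h1
    omega
  subst hr3
  have hheq : (q.height : WithBot ℕ∞) = ringKrullDim A := by
    refine le_antisymm hle ?_
    rw [← hh, hd]
    exact hdim
  have hfd : FiniteRingKrullDim A := by
    rw [finiteRingKrullDim_iff_ne_bot_and_top]
    refine ⟨?_, ?_⟩
    · rw [← hheq]; exact WithBot.coe_ne_bot
    · intro h
      rw [h] at hdim
      exact absurd hdim (by decide)
  have hqm : q.IsMaximal := Ideal.isMaximal_of_height_eq_ringKrullDim hheq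
  have hπq : algebraMap V A π ∈ q := by
    have h1 : algebraMap V (Localization.AtPrime q) π ∈ maximalIdeal (Localization.AtPrime q) := by
      rw [hu]
      refine Ideal.mul_mem_left _ _ ?_
      have h2 : x 0 ∈ maximalIdeal (Localization.AtPrime q) := by
        rw [hm]
        exact Ideal.subset_span (Or.inl ⟨0, rfl⟩)
      rw [Fin.prod_univ_succ]
      exact Ideal.mul_mem_right _ _ h2
    rw [IsScalarTower.algebraMap_apply V A (Localization.AtPrime q)] at h1
    exact (IsLocalization.AtPrime.to_map_mem_maximal_iff (Localization.AtPrime q) q _).mp h1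
  have hmq : ∀ v ∈ maximalIdeal V, algebraMap V A v ∈ q := by
    intro v hv
    rw [(IsDiscreteValuationRing.irreducible_iff_uniformizer π).mp hπ,
      Ideal.mem_span_singleton'] at hv
    obtain ⟨c, rfl⟩ := hv
    rw [map_mul]
    exact q.mul_mem_left _ hπq
  obtain ⟨hloc, hfin⟩ := hR V A hft q hmq
  refine ⟨hloc, pureTr_of_surj _ _ ?_⟩
  have := hac
  have : Algebra.IsIntegral (ResidueField V) (ResidueField (Localization.AtPrime q)) :=
    Algebra.IsIntegral.of_finite _ _
  exact (IsAlgClosed.algebraMap_bijective_of_isIntegral).2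

end Pool.Agent.Y421.LB
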